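import Pool.Agent.E8helper17.CND.S

namespace H78CNDRot
open H17CND

variable {V : Type} {G : SimpleGraph V}

lemma isPathList_rot {A B : List V} {p q : V}
    (h : IsPathList G (A ++ B)) (hp : A.getLast? = some p) (hq : B.getLast? = some q)
    (hpq : G.Adj p q) : IsPathList G (A ++ B.reverse) := by
  obtain ⟨h1, h2⟩ := h
  refine ⟨?_, ?_⟩
  · exact (List.Perm.nodup_iff (List.Perm.append_left A (List.reverse_perm B))).2 h1
  · rw [List.isChain_append] at h2 ⊢
    obtain ⟨hA, hB, -⟩ := h2
    refine ⟨hA, ?_, ?_⟩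
    · rw [List.isChain_reverse]
      exact hB.imp (fun a b hab => hab.symm)
    · intro x hx y hy
      rw [List.head?_reverse] at hy
      rw [hp] at hx
      rw [hq] at hy
      simp only [Option.mem_def, Option.some.injEq] at hx hy
      subst hx; subst hy
      exact hpq

/-- the segment `φ a, …, φ (a+n-1)` -/
def seg (φ : ℕ → V) (a n : ℕ) : List V := (List.range' a n).map φ

lemma seg_add (φ : ℕ → V) (a m n : ℕ) : seg φ a (m + n) = seg φ a m ++ seg φ (a + m) n := by
  unfold seg
  rw [← List.map_append]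
  congr 1
  simp

lemma seg_head (φ : ℕ → V) (a n : ℕ) (hn : 1 ≤ n) : (seg φ a n).head? = some (φ a) := by
  obtain ⟨k, rfl⟩ : ∃ k, n = k + 1 := ⟨n - 1, by omega⟩
  simp [seg, List.range'_succ]

lemma seg_last (φ : ℕ → V) (a n : ℕ) (hn : 1 ≤ n) :
    (seg φ a n).getLast? = some (φ (a + n - 1)) := by
  obtain ⟨k, rfl⟩ : ∃ k, n = k + 1 := ⟨n - 1, by omega⟩
  rw [seg_add]
  simp [seg]

lemma mem_seg (φ : ℕ → V) (a n : ℕ) (v : V) :
    v ∈ seg φ a n ↔ ∃ i, a ≤ i ∧ i < a + n ∧ φ i = v := by
  simp only [seg, List.mem_map, List.mem_range'_1]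
  constructor
  · rintro ⟨i, ⟨h1, h2⟩, h3⟩
    exact ⟨i, h1, h2, h3⟩
  · rintro ⟨i, h1, h2, h3⟩
    exact ⟨i, ⟨h1, h2⟩, h3⟩

lemma seg_chain {N : ℕ} {φ : ℕ → V} (hφ : CycOrd G N φ) (a n : ℕ) (h : a + n ≤ N) :
    (seg φ a n).IsChain G.Adj := by
  induction n generalizing a with
  | zero => simp [seg]
  | succ n ih =>
    rw [seg, List.range'_succ, List.map_cons]
    rcases n with _ | n
    · simp
    · rw [List.range'_succ, List.map_cons, List.isChain_cons_cons]
      refine ⟨hφ.adj a (by omega), ?_⟩
      have := ih (a + 1) (by omega)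
      rw [seg, List.range'_succ, List.map_cons] at this
      exact this

lemma seg_nodup {N : ℕ} {φ : ℕ → V} (hφ : CycOrd G N φ) (a n : ℕ) (h : a + n ≤ N) :
    (seg φ a n).Nodup := by
  unfold seg
  apply List.Nodup.map_on _ (List.nodup_range')
  intro x hx y hy hxy
  rw [List.mem_range'_1] at hx hy
  exact hφ.inj x (by omega) y (by omega) hxy

theorem t_ROT : S_ROT := by
  intro V G N φ hφ Fl hFl x0 hx0
  obtain ⟨h1, hN, -⟩ := hFl x0 hx0
  set A := seg φ (x0 + 1) (N - x0 - 1) with hA
  have hAhead : A.head? = some (φ (x0 + 1)) := seg_head _ _ _ (by omega)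
  have hAlast : A.getLast? = some (φ (N - 1)) := by
    rw [hA, seg_last _ _ _ (by omega)]
    congr 2
    omega
  have key : ∀ x ∈ Fl, x ≤ x0 → (∃ M : List V, IsPathList G (A ++ (seg φ 0 x ++ M)) ∧
      M.getLast? = some (φ x) ∧ ∀ v, v ∈ A ++ (seg φ 0 x ++ M) ↔ ∃ i < N, φ i = v) →
      HP G {v | ∃ i < N, φ i = v} (φ (x0 + 1)) (φ 0) := by
    intro x
    induction x using Nat.strong_induction_on with
    | _ x ih =>
      intro hx hxx hS
      obtain ⟨M, hM, hMl, hMm⟩ := hS
      obtain ⟨hx1, hxN, hc⟩ := hFl x hx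
      have hMne : M ≠ [] := by
        rintro rfl
        simp at hMl
      rcases hc with hc | ⟨y, hy, hy1, hyx, hc⟩
      · have hBl : (seg φ 0 x ++ M).getLast? = some (φ x) := by
          rw [List.getLast?_append_of_ne_nil _ hMne]
          exact hMl
        have := isPathList_rot hM hAlast hBl hc.symm
        refine ⟨A ++ (seg φ 0 x ++ M).reverse, this, ?_, ?_, ?_⟩
        · rw [List.head?_append, hAhead]; rfl
        · rw [List.getLast?_append, List.getLast?_reverse, List.head?_append,
            seg_head φ 0 x hx1]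
          rfl
        · intro v
          show v ∈ A ++ (seg φ 0 x ++ M).reverse ↔ ∃ i < N, φ i = v
          rw [← hMm v]
          simp only [List.mem_append, List.mem_reverse]
      · -- second case
        have hsplit : seg φ 0 x = seg φ 0 y ++ seg φ y (x - y) := by
          have h := seg_add φ 0 y (x - y)
          rw [show y + (x - y) = x by omega, Nat.zero_add] at h
          exact h
        have hBl : (seg φ y (x - y) ++ M).getLast? = some (φ x) := by
          rw [List.getLast?_append_of_ne_nil _ hMne]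
          exact hMl
        have hA'l : (A ++ seg φ 0 y).getLast? = some (φ (y - 1)) := by
          rw [List.getLast?_append, seg_last φ 0 y hy1]
          simp
        have hM' : IsPathList G ((A ++ seg φ 0 y) ++ (seg φ y (x - y) ++ M)) := by
          rw [hsplit] at hM
          simpa [List.append_assoc] using hM
        have hr := isPathList_rot hM' hA'l hBl hc.symm
        refine ih y hyx hy (by omega) ⟨(seg φ y (x - y) ++ M).reverse, ?_, ?_, ?_⟩
        · rw [List.append_assoc] at hr
          exact hr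
        · rw [List.getLast?_reverse, List.head?_append, seg_head φ y _ (by omega)]
          rfl
        · intro v
          rw [← hMm v, hsplit]
          simp only [List.mem_append, List.mem_reverse]
          tauto
  refine key x0 hx0 le_rfl ⟨[φ x0], ⟨?_, ?_⟩, rfl, ?_⟩
  · have h0 : seg φ 0 x0 ++ [φ x0] = seg φ 0 (x0 + 1) := by
      rw [seg_add]
      simp [seg]
    rw [h0]
    refine List.Nodup.append (seg_nodup hφ _ _ (by omega)) (seg_nodup hφ _ _ (by omega)) ?_
    intro v hv hv'
    rw [mem_seg] at hv hv'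
    obtain ⟨i, hi1, hi2, rfl⟩ := hv
    obtain ⟨i', hi1', hi2', he⟩ := hv'
    have := hφ.inj i' (by omega) i (by omega) he
    omega
  · have h0 : seg φ 0 x0 ++ [φ x0] = seg φ 0 (x0 + 1) := by
      rw [seg_add]
      simp [seg]
    rw [h0, List.isChain_append]
    refine ⟨seg_chain hφ _ _ (by omega), seg_chain hφ _ _ (by omega), ?_⟩
    intro a ha b hb
    rw [hAlast] at ha
    rw [seg_head φ 0 _ (by omega)] at hb
    simp only [Option.mem_def, Option.some.injEq] at ha hb
    subst ha; subst hb
    exact hφ.close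
  · intro v
    have h0 : seg φ 0 x0 ++ [φ x0] = seg φ 0 (x0 + 1) := by
      rw [seg_add]
      simp [seg]
    rw [h0, List.mem_append, hA, mem_seg, mem_seg]
    constructor
    · rintro (⟨i, h1, h2, h3⟩ | ⟨i, h1, h2, h3⟩)
      · exact ⟨i, by omega, h3⟩
      · exact ⟨i, by omega, h3⟩
    · rintro ⟨i, h1, h2⟩
      by_cases hi : i < x0 + 1
      · exact Or.inr ⟨i, by omega, by omega, h2⟩
      · exact Or.inl ⟨i, by omega, by omega, h2⟩

end H78CNDRot
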