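import Pool.Agent.E8helper17.CND.S

namespace H78CNDLong
open H17CND

lemma four : ∀ (a b c d : Fin 4), a ≠ b → a ≠ c → a ≠ d → b ≠ c → b ≠ d → c ≠ d →
    ∀ x : Fin 4, x = a ∨ x = b ∨ x = c ∨ x = d := by decide

lemma ex_other : ∀ (a b : Fin 4), a ≠ b → ∃ c d : Fin 4, a ≠ c ∧ a ≠ d ∧ b ≠ c ∧ b ≠ d ∧ c ≠ d := by
  decide

lemma six (a b c d : Fin 4) (hab : a ≠ b) (hac : a ≠ c) (had : a ≠ d) (hbc : b ≠ c)
    (hbd : b ≠ d) (hcd : c ≠ d) (e : Sym2 (Fin 4)) (he : ¬ e.IsDiag) :
    e = s(a, b) ∨ e = s(b, c) ∨ e = s(c, a) ∨ e = s(a, d) ∨ e = s(d, b) ∨ e = s(c, d) := by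
  induction e with
  | _ x y =>
    simp only [Sym2.mk_isDiag_iff] at he
    rcases four a b c d hab hac had hbc hbd hcd x with rfl | rfl | rfl | rfl <;>
      rcases four _ _ _ _ hab hac had hbc hbd hcd y with rfl | rfl | rfl | rfl <;>
      simp_all

variable {β : Type}

lemma b_mem_Sp (i k : Fin 4) (s : Bool) (h : β) : (CV.b i s h : CV β) ∈ (Sp k : Set (CV β)) ↔ i = k := by
  constructor
  · rintro (⟨s, h', e⟩ | ⟨j', h', e⟩)
    · cases e; rfl
    · cases e
  · rintro rfl
    exact Or.inl ⟨s, h, rfl⟩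

lemma x_mem_Sp (i j k : Fin 4) (h : i ≠ j) : (CV.x i j h : CV β) ∈ (Sp k : Set (CV β)) ↔ i = k := by
  constructor
  · rintro (⟨s, h', e⟩ | ⟨j', h', e⟩)
    · cases e
    · cases e; rfl
  · rintro rfl
    exact Or.inr ⟨j, h, rfl⟩

lemma m_mem_Sp (e : Sym2 (Fin 4)) (he : ¬ e.IsDiag) (k : Fin 4) :
    (CV.m e he : CV β) ∉ (Sp k : Set (CV β)) := by
  rintro (⟨s, h', e⟩ | ⟨j', h', e⟩) <;> cases e

/-- the code of a vertex -/
def code : CV β → Fin 4 ⊕ Sym2 (Fin 4)
  | .b i _ _ => Sum.inl i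
  | .x i _ _ => Sum.inl i
  | .m e _ => Sum.inr e

lemma mem_Sp_iff (z : CV β) (k : Fin 4) : z ∈ (Sp k : Set (CV β)) ↔ code z = Sum.inl k := by
  cases z with
  | b i s h => rw [b_mem_Sp]; simp [code]
  | x i j h => rw [x_mem_Sp]; simp [code]
  | m e h => simp [code, m_mem_Sp]

lemma eq_m_iff (z : CV β) (e : Sym2 (Fin 4)) (he : ¬ e.IsDiag) :
    z = CV.m e he ↔ code z = Sum.inr e := by
  cases z with
  | b i s h => simp [code]
  | x i j h => simp [code]
  | m e' h => simp [code]

/-- one step: `… → m{i,j} → (B : x j i ⇝ w)` after a path ending at `x i j` -/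
lemma step (hA : S_APP) (h1 : S_ONE) {H : SimpleGraph β} {τ : Fin 4 → β} {S B : Set (CV β)}
    {u w : CV β} {i j : Fin 4} (hij : i ≠ j) (hp : HP (comp H τ) S u (CV.x i j hij))
    (he : ¬ (s(i, j) : Sym2 (Fin 4)).IsDiag) (hB : HP (comp H τ) B (CV.x j i hij.symm) w)
    (hd1 : CV.m s(i, j) he ∉ S) (hd2 : CV.m s(i, j) he ∉ B) (hd3 : Disjoint S B) :
    HP (comp H τ) ((S ∪ {CV.m s(i, j) he}) ∪ B) u w := by
  have ha : (comp H τ).Adj (CV.x i j hij) (CV.m s(i, j) he) := by
    simp [comp, cadj]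
  have hb : (comp H τ).Adj (CV.m s(i, j) he) (CV.x j i hij.symm) := by
    simp [comp, cadj, Sym2.eq_swap]
  refine hA _ _ _ _ _ _ _ _ (hA _ _ _ _ _ _ _ _ hp (h1 _ _ _) ha ?_) hB hb ?_
  · rwa [Set.disjoint_singleton_right]
  · rw [Set.disjoint_union_left]
    refine ⟨hd3, ?_⟩
    rwa [Set.disjoint_singleton_left]

/-- last step: `… → m{i,j}` after a path ending at `x i j` -/
lemma stepm (hA : S_APP) (h1 : S_ONE) {H : SimpleGraph β} {τ : Fin 4 → β} {S : Set (CV β)}
    {u : CV β} {i j : Fin 4} (hij : i ≠ j) (hp : HP (comp H τ) S u (CV.x i j hij))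
    (he : ¬ (s(i, j) : Sym2 (Fin 4)).IsDiag)
    (hd1 : CV.m s(i, j) he ∉ S) :
    HP (comp H τ) (S ∪ {CV.m s(i, j) he}) u (CV.m s(i, j) he) := by
  have ha : (comp H τ).Adj (CV.x i j hij) (CV.m s(i, j) he) := by
    simp [comp, cadj]
  refine hA _ _ _ _ _ _ _ _ hp (h1 _ _ _) ha ?_
  rwa [Set.disjoint_singleton_right]

lemma nd {i j : Fin 4} (h : i ≠ j) : ¬ (s(i, j) : Sym2 (Fin 4)).IsDiag := by
  rwa [Sym2.mk_isDiag_iff]

lemma distinct6 : ∀ (a b c d : Fin 4), a ≠ b → a ≠ c → a ≠ d → b ≠ c → b ≠ d → c ≠ d →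
    [s(a, b), s(b, c), s(c, a), s(a, d), s(d, b), s(c, d)].Nodup := by
  decide


theorem t_LONG (hA : S_APP) (h1 : S_ONE) (hP : S_SPATH) (hS : S_SSPLIT) : S_LONG := by
  intro g B v
  -- case of a vertex of a part
  have part : ∀ (a : Fin 4), v ∈ (Sp a : Set (CV B.β)) →
      ∃ (w y : CV B.β), HP (comp B.H B.τ) {z | z ≠ y} v w := by
    intro a hv
    obtain ⟨b, c, d, hab, hac, had, A, A', hbc, hbd, hcd, hdis, hun, p1, p2⟩ := hS g B a v hv
    have hmem : ∀ z : CV B.β, (z ∈ A ∨ z ∈ A') ↔ code z = Sum.inl a := by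
      intro z
      rw [← mem_Sp_iff, ← hun, Set.mem_union]
    have hd : ∀ z : CV B.β, z ∈ A → z ∉ A' := fun z h h' => (Set.disjoint_left.1 hdis) h h'
    have hAc : ∀ z : CV B.β, z ∈ A → code z = Sum.inl a := fun z h => (hmem z).1 (Or.inl h)
    have hAc' : ∀ z : CV B.β, z ∈ A' → code z = Sum.inl a := fun z h => (hmem z).1 (Or.inr h)
    have hmA : ∀ (e : Sym2 (Fin 4)) (he : ¬ e.IsDiag), (CV.m e he : CV B.β) ∉ A := by
      intro e he h
      have := hAc _ h
      simp [code] at this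
    have hmA' : ∀ (e : Sym2 (Fin 4)) (he : ¬ e.IsDiag), (CV.m e he : CV B.β) ∉ A' := by
      intro e he h
      have := hAc' _ h
      simp [code] at this
    have h6 := distinct6 a b c d hab hac had hbc hbd hcd
    simp only [List.nodup_cons, List.mem_cons, List.not_mem_nil, not_or, not_false_eq_true,
      or_false, and_true, List.nodup_nil] at h6
    have e1 := step hA h1 hab p1 (nd hab) (hP g B b a c hab.symm hbc hac) (hmA _ _)
      (m_mem_Sp _ _ _) ?_
    have e2 := step hA h1 hbc e1 (nd hbc) (hP g B c b a hbc.symm hac.symm hab.symm) ?_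
      (m_mem_Sp _ _ _) ?_
    have e3 := step hA h1 hac.symm e2 (nd hac.symm) p2 ?_ (hmA' _ _) ?_
    have e4 := step hA h1 had e3 (nd had) (hP g B d a b had.symm hbd.symm hab) ?_
      (m_mem_Sp _ _ _) ?_
    have e5 := stepm hA h1 hbd.symm e4 (nd hbd.symm) ?_
    · refine ⟨CV.m s(d, b) (nd hbd.symm), CV.m s(c, d) (nd hcd), ?_⟩
      convert e5 using 1
      ext z
      simp only [Set.mem_union, Set.mem_singleton_iff, mem_Sp_iff, eq_m_iff]
      show z ≠ CV.m s(c, d) (nd hcd) ↔ _
      rw [ne_eq, eq_m_iff]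
      have hz := hmem z
      have h4 := four a b c d hab hac had hbc hbd hcd
      have h6' := six a b c d hab hac had hbc hbd hcd
      cases z with
      | b i s h =>
        simp only [code, reduceCtorEq, not_false_eq_true, true_iff, Sum.inl.injEq] at *
        have := h4 i
        tauto
      | x i j h =>
        simp only [code, reduceCtorEq, not_false_eq_true, true_iff, Sum.inl.injEq] at *
        have := h4 i
        tauto
      | m e he =>
        have hh := h6' e he
        have ha := hmA e he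
        have ha' := hmA' e he
        simp only [code, reduceCtorEq, Sum.inr.injEq, ha, ha', false_or, or_false] at *
        constructor
        · intro h
          tauto
        · rintro ((((rfl | rfl) | rfl) | rfl) | rfl) h <;> tauto
    all_goals first
      | (rw [Set.disjoint_left]
         intro z hz hz'
         have k1 := hAc z
         have k2 := hAc' z
         have k3 := hd z
         simp only [Set.mem_union, Set.mem_singleton_iff, mem_Sp_iff, eq_m_iff] at hz hz'
         grind)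
      | (simp only [Set.mem_union, Set.mem_singleton_iff, mem_Sp_iff, eq_m_iff, code, hmA, hmA',
          reduceCtorEq, Sum.inr.injEq]
         grind)
  cases v with
  | b i s h => exact part i ((b_mem_Sp _ _ _ _).2 rfl)
  | x i j h => exact part i ((x_mem_Sp _ _ _ _).2 rfl)
  | m e he =>
    induction e with
    | _ a b =>
    have hab : a ≠ b := by rwa [Sym2.mk_isDiag_iff] at he
    obtain ⟨c, d, hac, had, hbc, hbd, hcd⟩ := ex_other a b hab
    have h6 := distinct6 a b c d hab hac had hbc hbd hcd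
    simp only [List.nodup_cons, List.mem_cons, List.not_mem_nil, not_or, not_false_eq_true,
      or_false, and_true, List.nodup_nil] at h6
    have hadj : (comp B.H B.τ).Adj (CV.m s(a, b) he) (CV.x a b hab) := by
      simp [comp, cadj]
    have e0 := hA _ _ _ _ _ _ _ _ (h1 _ _ (CV.m s(a, b) he)) (hP g B a b c hab hac hbc) hadj ?_
    have e1 := step hA h1 hac e0 (nd hac) (hP g B c a b hac.symm hbc.symm hab) ?_
      (m_mem_Sp _ _ _) ?_
    have e2 := step hA h1 hbc.symm e1 (nd hbc.symm) (hP g B b c d hbc hbd hcd) ?_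
      (m_mem_Sp _ _ _) ?_
    have e3 := step hA h1 hbd e2 (nd hbd) (hP g B d b c hbd.symm hcd.symm hbc) ?_
      (m_mem_Sp _ _ _) ?_
    have e4 := stepm hA h1 hcd.symm e3 (nd hcd.symm) ?_
    · refine ⟨CV.m s(d, c) (nd hcd.symm), CV.m s(a, d) (nd had), ?_⟩
      convert e4 using 1
      ext z
      simp only [Set.mem_union, Set.mem_singleton_iff, mem_Sp_iff, eq_m_iff]
      show z ≠ CV.m s(a, d) (nd had) ↔ _
      rw [ne_eq, eq_m_iff]
      have h4 := four a b c d hab hac had hbc hbd hcd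
      have h6' := six a b c d hab hac had hbc hbd hcd
      have s1 : (s(a, c) : Sym2 (Fin 4)) = s(c, a) := Sym2.eq_swap
      have s2 : (s(c, b) : Sym2 (Fin 4)) = s(b, c) := Sym2.eq_swap
      have s3 : (s(b, d) : Sym2 (Fin 4)) = s(d, b) := Sym2.eq_swap
      have s4 : (s(d, c) : Sym2 (Fin 4)) = s(c, d) := Sym2.eq_swap
      rw [s1, s2, s3, s4]
      cases z with
      | b i s h =>
        simp only [code, reduceCtorEq, not_false_eq_true, true_iff, Sum.inl.injEq]
        have := h4 i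
        tauto
      | x i j h =>
        simp only [code, reduceCtorEq, not_false_eq_true, true_iff, Sum.inl.injEq]
        have := h4 i
        tauto
      | m e he =>
        have hh := h6' e he
        simp only [code, reduceCtorEq, Sum.inr.injEq, false_or, or_false]
        constructor
        · intro h
          tauto
        · rintro ((((rfl | rfl) | rfl) | rfl) | rfl) h <;> tauto
    all_goals
      have s1 : (s(a, c) : Sym2 (Fin 4)) = s(c, a) := Sym2.eq_swap
      have s2 : (s(c, b) : Sym2 (Fin 4)) = s(b, c) := Sym2.eq_swap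
      have s3 : (s(b, d) : Sym2 (Fin 4)) = s(d, b) := Sym2.eq_swap
      have s4 : (s(d, c) : Sym2 (Fin 4)) = s(c, d) := Sym2.eq_swap
      first
      | (rw [Set.disjoint_left]
         intro z hz hz'
         simp only [Set.mem_union, Set.mem_singleton_iff, mem_Sp_iff, eq_m_iff] at hz hz'
         grind)
      | (simp only [Set.mem_union, Set.mem_singleton_iff, mem_Sp_iff, eq_m_iff, code,
          reduceCtorEq, Sum.inr.injEq]
         grind)

end H78CNDLong
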